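import Mathlib
import Pool.Agent.HNNA.Final

/-!
# The groups `G(A, L')` with `A` of infinite order are not automatic

Automatic groups are defined literally as by Epstein, Cannon, Holt, Levy, Paterson and Thurston:
a finite family of generators, a regular language of words mapping onto the group, and synchronous
two-tape automata (regular languages of padded pairs of words) which recognise equality and right
multiplication by every generator.
-/

set_option autoImplicit false

namespace Pool.Agent.Results.MP_4b60bf_al.NeverAutomatic

/-- The element of `G` represented by a word in the letters `0, …, k - 1`. -/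
def val {G : Type} [Group G] {k : ℕ} (gen : Fin k → G) (u : List (Fin k)) : G := (u.map gen).prod

/-- The padded pair of two words: both words are read synchronously, `none` is the padding symbol
(appended to the shorter word). -/
def pad {k : ℕ} (u v : List (Fin k)) : List (Option (Fin k) × Option (Fin k)) :=
  (List.range (max u.length v.length)).map (fun t => (u[t]?, v[t]?))

/-- The language recognised by the comparator of `a`: padded pairs of words `u, v` in `L` such that
`v` represents the element `u a`. -/
def comparator {G : Type} [Group G] {k : ℕ} (gen : Fin k → G) (L : Language (Fin k)) (a : G) :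
    Language (Option (Fin k) × Option (Fin k)) :=
  {x | ∃ u ∈ L, ∃ v ∈ L, val gen v = val gen u * a ∧ x = pad u v}

/-- Automatic groups: for some finite family of generators there is a regular language of words
which maps onto the group such that equality and right multiplication by every generator are
recognised by synchronous two-tape finite automata. -/
def IsAutomatic (G : Type) [Group G] : Prop :=
  ∃ (k : ℕ) (gen : Fin k → G) (L : Language (Fin k)),
    L.IsRegular ∧ (∀ g : G, ∃ u ∈ L, val gen u = g) ∧
      (comparator gen L 1).IsRegular ∧ ∀ i : Fin k, (comparator gen L (gen i)).IsRegular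

/-- `φ` is the restriction of the rational matrix `A` to the subgroup `L'` of `ℤ^n` (written
multiplicatively): `φ x = A x` for all `x ∈ L'`. -/
def IsRestriction {n : ℕ} (A : Matrix.GeneralLinearGroup (Fin n) ℚ)
    {L' B : Subgroup (Multiplicative (Fin n → ℤ))} (φ : L' ≃* B) : Prop :=
  ∀ x : L', ∀ i : Fin n,
    ((Multiplicative.toAdd (φ x : Multiplicative (Fin n → ℤ)) i : ℤ) : ℚ) =
      (A : Matrix (Fin n) (Fin n) ℚ).mulVec
        (fun j => ((Multiplicative.toAdd (x : Multiplicative (Fin n → ℤ)) j : ℤ) : ℚ)) i

theorem short_path {α σ : Type} [Fintype σ] (M : DFA α σ) (s : σ) :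
    ∀ (N : ℕ) (y : List α), y.length ≤ N → M.evalFrom s y ∈ M.accept →
      ∃ z : List α, z.length ≤ Fintype.card σ ∧ M.evalFrom s z ∈ M.accept := by
  intro N
  induction N with
  | zero =>
    intro y hy h
    exact ⟨y, by omega, h⟩
  | succ N ih =>
    intro y hy h
    by_cases hl : y.length ≤ Fintype.card σ
    · exact ⟨y, hl, h⟩
    · push Not at hl
      obtain ⟨q, a, b, c, hx, -, hb, h1, h2, h3⟩ := M.evalFrom_split (s := s) hl.le rfl
      apply ih (a ++ c)
      · have hbl : 0 < b.length := List.length_pos_iff.2 hb
        rw [hx] at hy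
        simp only [List.length_append] at hy ⊢
        omega
      · rw [DFA.evalFrom_of_append, h1, h3]
        exact h

theorem pad_length {k : ℕ} (u v : List (Fin k)) : (pad u v).length = max u.length v.length := by
  simp [pad]

theorem pad_getElem? {k : ℕ} (u v : List (Fin k)) (t : ℕ) (ht : t < max u.length v.length) :
    (pad u v)[t]? = some (u[t]?, v[t]?) := by
  unfold pad
  rw [List.getElem?_map, List.getElem?_range ht]
  rfl

theorem pad_prefix {k : ℕ} (u v u' v' : List (Fin k)) (t : ℕ) (y : List (Option (Fin k) × Option (Fin k)))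
    (ht : t ≤ max u.length v.length) (h : (pad u v).take t ++ y = pad u' v') :
    (u'.take t = u.take t ∧ (u'.drop t).length ≤ y.length) ∧
      (v'.take t = v.take t ∧ (v'.drop t).length ≤ y.length) := by
  have hlen : max u'.length v'.length = t + y.length := by
    rw [← pad_length, ← h, List.length_append, List.length_take, pad_length, min_eq_left ht]
  have key : ∀ s, s < t → u'[s]? = u[s]? ∧ v'[s]? = v[s]? := by
    intro s hs
    have h1 := pad_getElem? u' v' s (by omega)
    have h2 := pad_getElem? u v s (by omega)
    rw [← h, List.getElem?_append_left (by rw [List.length_take, pad_length]; omega),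
      List.getElem?_take_of_lt hs, h2] at h1
    have h3 := Option.some.inj h1
    exact ⟨(congrArg Prod.fst h3).symm, (congrArg Prod.snd h3).symm⟩
  refine ⟨⟨?_, ?_⟩, ?_, ?_⟩
  · apply List.ext_getElem?
    intro s
    by_cases hs : s < t
    · rw [List.getElem?_take_of_lt hs, List.getElem?_take_of_lt hs]
      exact (key s hs).1
    · rw [List.getElem?_take_eq_none (by omega), List.getElem?_take_eq_none (by omega)]
  · rw [List.length_drop]
    omega
  · apply List.ext_getElem?
    intro s
    by_cases hs : s < t
    · rw [List.getElem?_take_of_lt hs, List.getElem?_take_of_lt hs]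
      exact (key s hs).2
    · rw [List.getElem?_take_eq_none (by omega), List.getElem?_take_eq_none (by omega)]
  · rw [List.length_drop]
    omega

theorem val_append {G : Type} [Group G] {k : ℕ} (gen : Fin k → G) (u v : List (Fin k)) :
    val gen (u ++ v) = val gen u * val gen v := by
  simp [val]

/-- an automatic structure has the fellow traveller property -/
theorem fellow {G : Type} [Group G] {k : ℕ} (gen : Fin k → G) (L : Language (Fin k))
    (hs : ∀ g : G, ∃ u ∈ L, val gen u = g) (a : G) (ha : (comparator gen L a).IsRegular) :
    ∃ K : ℕ, ∀ u ∈ L, ∀ v ∈ L, val gen v = val gen u * a → ∀ t : ℕ, ∃ w : List (Fin k),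
      w.length ≤ K ∧ val gen (u.take t) * val gen w = val gen (v.take t) := by
  obtain ⟨σ, hσ, M, hM⟩ := ha
  choose c hcL hc using hs
  set N := Fintype.card σ with hN
  have hfin : (Set.image2 (fun p q : List (Fin k) => (c (val gen p * a * (val gen q)⁻¹)).length)
      {l | l.length ≤ N} {l | l.length ≤ N}).Finite :=
    Set.Finite.image2 _ (List.finite_length_le _ _) (List.finite_length_le _ _)
  obtain ⟨K, hK⟩ := hfin.bddAbove
  have hK' : ∀ p q : List (Fin k), p.length ≤ N → q.length ≤ N →
      (c (val gen p * a * (val gen q)⁻¹)).length ≤ K := fun p q hp hq =>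
    hK (Set.mem_image2_of_mem hp hq)
  refine ⟨K, fun u hu v hv huv t => ?_⟩
  by_cases ht : t ≤ max u.length v.length
  · have hacc : pad u v ∈ M.accepts := by
      rw [hM]
      exact ⟨u, hu, v, hv, huv, rfl⟩
    rw [DFA.mem_accepts, DFA.eval, ← List.take_append_drop t (pad u v), DFA.evalFrom_of_append] at hacc
    obtain ⟨z, hz, hzacc⟩ := short_path M _ _ _ le_rfl hacc
    have hmem : (pad u v).take t ++ z ∈ M.accepts := by
      rw [DFA.mem_accepts, DFA.eval, DFA.evalFrom_of_append]
      exact hzacc
    rw [hM] at hmem
    obtain ⟨u', -, v', -, hval, heq⟩ := hmem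
    obtain ⟨⟨h1, h2⟩, h3, h4⟩ := pad_prefix u v u' v' t z ht heq
    refine ⟨c (val gen (u'.drop t) * a * (val gen (v'.drop t))⁻¹),
      hK' _ _ (h2.trans hz) (h4.trans hz), ?_⟩
    rw [hc]
    have e1 : val gen u' = val gen (u.take t) * val gen (u'.drop t) := by
      rw [← h1, ← val_append, List.take_append_drop]
    have e2 : val gen v' = val gen (v.take t) * val gen (v'.drop t) := by
      rw [← h3, ← val_append, List.take_append_drop]
    rw [e1, e2] at hval
    rw [← mul_assoc, ← mul_assoc, ← hval]
    group
  · push Not at ht
    refine ⟨c (val gen [] * a * (val gen [])⁻¹), hK' _ _ (Nat.zero_le _) (Nat.zero_le _), ?_⟩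
    rw [hc, List.take_of_length_le (by omega), List.take_of_length_le (by omega), huv]
    simp [val]

/-- Let `n` be a natural number, `A ∈ GL(n, ℚ)` of infinite order, `L'` a subgroup of finite index of
`ℤ^n` with `A L' ⊆ ℤ^n`, `B = A L'` and `φ : L' → B` the isomorphism `x ↦ A x`.  Then the
HNN-extension `G(A, L')` of `ℤ^n` along `φ` is not automatic. -/
theorem result (n : ℕ) (A : Matrix.GeneralLinearGroup (Fin n) ℚ)
    (L' B : Subgroup (Multiplicative (Fin n → ℤ))) (φ : L' ≃* B)
    (hA : ¬ IsOfFinOrder A) (hL : L'.FiniteIndex) (hφ : IsRestriction A φ) :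
    ¬ IsAutomatic (HNNExtension (Multiplicative (Fin n → ℤ)) L' B φ) := by
  rintro ⟨k, gen, L, ⟨σ, hσ, M, hM⟩, hs, hone, hgen⟩
  have hf : ∀ i : Option (Fin k), ∃ K : ℕ, ∀ u ∈ L, ∀ v ∈ L,
      val gen v = val gen u * (match i with | none => 1 | some i => gen i) →
      ∀ t : ℕ, ∃ w : List (Fin k), w.length ≤ K ∧
        val gen (u.take t) * val gen w = val gen (v.take t) := by
    intro i
    cases i with
    | none => exact fellow gen L hs _ hone
    | some i => exact fellow gen L hs _ (hgen i)
  choose K hK using hf
  refine Pool.Agent.HNNA.main n A L' B φ hA hL.index_ne_zero hφ k gen σ hσ M ?_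
    (Finset.univ.sup K) ?_
  · intro g
    obtain ⟨u, hu, hg⟩ := hs g
    exact ⟨u, by rw [hM]; exact hu, hg⟩
  · intro u hu v hv h t
    rw [hM] at hu hv
    rcases h with h | ⟨i, h⟩
    · obtain ⟨w, hw, hw'⟩ := hK none u hu v hv (by simpa [val] using h) t
      exact ⟨w, hw.trans (Finset.le_sup (Finset.mem_univ _)), hw'⟩
    · obtain ⟨w, hw, hw'⟩ := hK (some i) u hu v hv (by simpa [val] using h) t
      exact ⟨w, hw.trans (Finset.le_sup (Finset.mem_univ _)), hw'⟩

end Pool.Agent.Results.MP_4b60bf_al.NeverAutomatic
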